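import Pool.Agent.H44T.BR.Frob

/-!
# Semisimplicity of the Frobenius: bounded defects vanish

Let `k` be a finite field with `q` elements and `H^i(X)` the cohomology of `X ⊗ k'`, `k'` an algebraic
closure, with coefficients in an algebraic closure of `ℚ_ℓ`, with the Frobenius endomorphism `F`.
Fix the dimension `n` and the degree `i` (for example `n = i = 2`: the second cohomology of surfaces,
or `n = i = 3`).

**Theorem.**

(1) `F` is semisimple on `H^i(X)` for all smooth projective varieties `X` of dimension `n` over `k` if
and only if there is ONE number `d`, for example `d = 10 ^ 100`, such that for all these `X` the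
eigenvectors of `F` span a subspace of `H^i(X)` of codimension at most `d`.

(2) The same holds for each eigenvalue `α`: the generalised eigenspace of `F` in `H^i(X)` for the
eigenvalue `α` is the eigenspace for all `X` of dimension `n` if (and only if) the difference of their
dimensions is bounded. For `i = 2 r` and `α = q ^ r` the difference is that of the order of the
pole of the zeta function of `X` at `s = r` and of the dimension of the space of the invariant classes
in `H^(2r)(X)(r)`.

So if the Frobenius is not semisimple on `H^i` of one variety of dimension `n`, then there are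
varieties of the same dimension `n`, over the same field, for which arbitrarily many Jordan
blocks of size at least two occur in the same degree (with the same eigenvalue).

Proof. Let `V ⊆ S^N` be a smooth complete intersection of dimension `n = dim S` of divisors in multiples
of the class `ξ + ... + ξ`, with the projections `p_l : V → S`. If `x` is orthogonal to the powers of
`ξ` then `p_{m*} p_l^* x = 0` for `m ≠ l` and `p_{l*} p_l^* x = κ x`. If the eigenvectors span a subspace
`E` of codimension at most `d` of `H^i(V)`, with a complement `M`, and `N > d dim H(S)`, then there is a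
nontrivial relation `∑ b_l p_{l*} = 0` on `M`, and `b_j κ x = ∑ b_l p_{l*} (p_j^* x)` is in the image of
`E`, so it is a sum of eigenvectors. The powers of `ξ` are eigenvectors.
-/

universe u v

namespace Pool.Agent.Results.MP_93fb11_ag.BoundedJordanDefects

open Pool.Agent.H914 Pool.Agent.H914.VarClass Pool.Agent.H914.VarClass.Obj
  Pool.Agent.H914.WeilCohomology Pool.Agent.H44T.BR

/-- **The Frobenius is semisimple on `H^i` for all varieties of dimension `n` if its defects are
bounded.** -/
theorem result {k : Type u} [Field k] {𝒱 : VarClass k} {ops : CycleOps 𝒱}
    (W : WeilCohomology.{u, v} ops) (q : ℕ) (Fr : ∀ X : 𝒱.Obj, X ⟶ X) (hF : IsFrobenius W q Fr)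
    (Pol : ∀ X : 𝒱.Obj, X.Cycles → Prop) (n i : ℕ) (hP : HasPowers W Pol n) :
    (AllSemisimple W Fr Pol n i ↔ ∃ d, EigenDefectAtMost W Fr Pol n i d) ∧
    (∀ α, SemisimpleAt W Fr Pol n i α ↔ ∃ d, DefectAtMostAt W Fr Pol n i α d) :=
  ⟨semisimple_iff hF hP i, fun α => semisimpleAt_iff hF hP i α⟩

end Pool.Agent.Results.MP_93fb11_ag.BoundedJordanDefects
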