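import Pool.Agent.V69.SS.Sq

set_option autoImplicit false

/-!
# Semisimplicity of Frobenius when the square has few missing cycles

In the intended use `k` is an algebraic closure of the field with `p` elements, the varieties are the smooth
projective ones, `W` is the `ℓ`-adic cohomology and `Φ` are the Frobenius endomorphisms of models over finite
fields (`FrobSystem`).

Let `X` have dimension `n`. Let `M` be the number of the eigenvalues of Frobenius on `H^{2n}(X × X)` of the form
`q ^ n ζ`, `ζ` a root of unity, with multiplicities (the order of the pole at `s = n` of the zeta function of `X × X`
over a large finite field), and `r` the rank of the group of the correspondences (cycles of codimension `n` on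
`X × X`, over the algebraic closure) modulo numerical equivalence. If `M ≤ r + 2`, then Frobenius acts semisimply on
all the cohomology groups `H^i(X)`, over every finite field over which `X` is defined.

For `M = r`, a strong form of the Tate conjecture for `X × X`, this is well known (Tate). Here up to two
independent classes may be missing, and no comparison of homological and numerical equivalence is assumed.

Proof. If `M ≤ r + 2`, then `F` is semisimple for the eigenvalue `q ^ n` on `H^{2n}(X × X)`: on the orthogonal
complement (of dimension at most `2`) of the numerical correspondences in the generalised eigenspace, the form
`(F - q ^ n) x · y` is alternating of rank at most one (`V69.SS.jordan`, see `MP_b685ef_ag.SmallDefects`). Let `N` be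
the nilpotent part of a power `G` of the Frobenius endomorphism of `X`. Its class `c` is an eigenvector for `q ^ n`, and
its intersection number with each other eigenvector is the super trace of the product of `N` and of an operator
commuting with `G`, hence zero. As the intersection form is nondegenerate on the generalised eigenspace, `c = 0`.
-/

open CategoryTheory AlgebraicGeometry

universe u v

namespace Pool.Agent.Results.MP_93fb11_ag.SmallDefectOnSquare

open Pool.Agent.H914 Pool.Agent.V69.SS
open Pool.Agent.W534 (FrobSystem)

/-- **Semisimplicity of Frobenius from the square.** If over all finite fields the dimension of the generalised
eigenspace of Frobenius in `H^{2n}(X × X)`, `n = dim X`, for the eigenvalue `q ^ n` exceeds the rank of the group of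
the cycles of codimension `n` on `X × X` modulo numerical equivalence by at most `2`, then Frobenius acts semisimply
on the cohomology of `X`. -/
theorem result {k : Type u} [Field k] {𝒱 : VarClass k} {ops : CycleOps 𝒱}
    {W : WeilCohomology.{u, v} ops} {p : ℕ} (Φ : FrobSystem W p) (X : 𝒱.Obj)
    (h : DefectLE Φ (X.prod X) X.dim 2) : FrobSemisimple Φ X :=
  ss_of_defect Φ h

end Pool.Agent.Results.MP_93fb11_ag.SmallDefectOnSquare
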