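import Pool.Agent.V11106.SH.Semi2

/-!
# Semisimplicity of Frobenius up to a nilpotent part of small rank

Let `W` be a Weil cohomology theory (coefficients `K`) on a class of varieties closed under
products, with a Frobenius endomorphism of all cohomology algebras, compatible with pull-backs,
which acts on the classes of cycles of codimension `j` by `q ^ j`. Assume that the class contains,
for every `N`, a surface with algebraic cohomology and `N` independent divisor classes (a successive
blow-up of the projective plane in rational points).

**Fixed dimension.** If on the varieties `Y` of dimension `n + 2` the nilpotent part of the Frobenius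
endomorphism on `H^(i + 2)(Y)` has rank `o(b)`, where `b` is the Betti number `b_(i + 2)(Y)`, then
the Frobenius endomorphism acts semisimply on `H^i(X)` for all varieties `X` of dimension `n`.

**All dimensions.** Hence semisimplicity for all varieties and degrees is equivalent to nilpotent
parts whose rank is bounded for each dimension and degree, and to nilpotent parts of rank `o(b)`.
-/

open CategoryTheory AlgebraicGeometry

universe u v

namespace Pool.Agent.Results.MP_93fb11_ag.SublinearDefects

open Pool.Agent.H914 VarClass Obj WeilCohomology Pool.Agent.V11106.LB Pool.Agent.V11106.SH

variable {k : Type u} [Field k] {𝒱 : VarClass k} {ops : CycleOps 𝒱}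

theorem result (W : WeilCohomology.{u, v} ops) (hT : HasRationalSurfaces W)
    (G : GaloisLike W Unit) :
    (∀ n i : ℕ, NilpotentRankSublinear G (n + 2) (i + 2) → FrobeniusSemisimple G n i) ∧
    [∀ n i : ℕ, FrobeniusSemisimple G n i, ∀ n i : ℕ, NilpotentRankBounded G n i,
      ∀ n i : ℕ, NilpotentRankSublinear G n i].TFAE :=
  frobeniusSemisimple_main hT G

end Pool.Agent.Results.MP_93fb11_ag.SublinearDefects
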